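import Mathlib

/-! Definitions for the statements on systems `df = (b dt/t + c dt/(t-1)) f` with residue
matrices `b / n` and `c / n`, where `b`, `c` have entries in the ring of integers of a number
field `K`. -/

open Polynomial Matrix NumberField

namespace Pool.Agent.Work.MP_5e5ff1_ag

/-- The p-curvature of the system with residues `b / n`, `c / n` vanishes modulo `P`.
With `∇ = d/dt - (b/n)/t - (c/n)/(t-1)` the matrices `Q k` of the recursion are
`(n t (t-1))^k ∇^k` applied to the columns of the identity matrix, reduced modulo `P`. This is the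
recursion of the frozen statement. -/
def PCurvZero {K : Type*} [Field K] [NumberField K] {r : ℕ} (n : ℕ)
    (b c : Matrix (Fin r) (Fin r) (𝓞 K)) (P : Ideal (𝓞 K)) : Prop :=
  ∀ Q : ℕ → Matrix (Fin r) (Fin r) (Polynomial (𝓞 K ⧸ P)),
    Q 0 = 1 →
    (∀ k : ℕ, Q (k + 1) =
        (Polynomial.C (Ideal.Quotient.mk P (n : 𝓞 K)) *
            ((Polynomial.X : Polynomial (𝓞 K ⧸ P)) * (Polynomial.X - 1))) •
          (Q k).map (fun f => Polynomial.derivative f)
        - ((k : Polynomial (𝓞 K ⧸ P)) * Polynomial.C (Ideal.Quotient.mk P (n : 𝓞 K)) *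
            (2 * (Polynomial.X : Polynomial (𝓞 K ⧸ P)) - 1)) • Q k
        - (((Polynomial.X : Polynomial (𝓞 K ⧸ P)) - 1) •
              b.map (fun x => Polynomial.C (Ideal.Quotient.mk P x)) +
            (Polynomial.X : Polynomial (𝓞 K ⧸ P)) •
              c.map (fun x => Polynomial.C (Ideal.Quotient.mk P x))) * Q k) →
    Q (ringChar (𝓞 K ⧸ P)) = 0

/-- No nonzero vector is an eigenvector of both matrices. -/
def NoCommonEigenvector {F : Type*} [Field F] {r : ℕ} (b c : Matrix (Fin r) (Fin r) F) : Prop :=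
  ∀ v : Fin r → F, v ≠ 0 → ∀ x y : F, ¬ (b *ᵥ v = x • v ∧ c *ᵥ v = y • v)

/-- The rational numbers `e (0, ·)`, `e (1, ·)`, `e (2, ·)` are the eigenvalues, with
multiplicities, of the residues `b / n`, `c / n`, `- (b + c) / n` at `0`, `1` and `∞`. -/
def IsExponents {K : Type*} [Field K] [NumberField K] {r : ℕ} (n : ℕ)
    (b c : Matrix (Fin r) (Fin r) (𝓞 K)) (e : Fin 3 × Fin r → ℚ) : Prop :=
  ((n : K)⁻¹ • b.map (algebraMap (𝓞 K) K)).charpoly = ∏ j, (X - C ((e (0, j) : ℚ) : K)) ∧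
  ((n : K)⁻¹ • c.map (algebraMap (𝓞 K) K)).charpoly = ∏ j, (X - C ((e (1, j) : ℚ) : K)) ∧
  ((n : K)⁻¹ • (-(b + c)).map (algebraMap (𝓞 K) K)).charpoly
    = ∏ j, (X - C ((e (2, j) : ℚ) : K))

/-- The interlacing inequalities for three `r`-tuples of real exponents. -/
def Interlacing {r : ℕ} (v : Fin 3 × Fin r → ℝ) : Prop :=
  ∀ x : Fin 3 → ℝ, x 0 + x 1 + x 2 = 0 → (∀ i, Int.fract (x i.1 - v i) ≠ 0) →
    (r : ℝ) ≤ ∑ i, Int.fract (x i.1 - v i) ∧ ∑ i, Int.fract (x i.1 - v i) ≤ 2 * r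

/-- The real vector `w` solves the finite system of congruences `∑ k i * w i ≡ q mod 1`,
`(k, q) ∈ T`. The set of solutions is a finite union of translates, by torsion points, of a
subtorus of `(ℝ/ℤ)^ι` (or empty). -/
def Solves {ι : Type*} [Fintype ι] (T : Finset ((ι → ℤ) × ℚ)) (w : ι → ℝ) : Prop :=
  ∀ e ∈ T, ∃ z : ℤ, ∑ i, (e.1 i : ℝ) * w i = e.2 + z

/-- The rank of the homogeneous part of a system of congruences; if the system is solvable this is
the codimension of the set of solutions. -/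
noncomputable def relRank {ι : Type*} [Fintype ι] (T : Finset ((ι → ℤ) × ℚ)) : ℕ :=
  (Matrix.of fun (e : T) (i : ι) => ((e.1.1 i : ℤ) : ℝ)).rank

/-- The classes modulo one of the `r` real numbers `w j` form a coset of `(1/r) ℤ`. -/
def EvenlySpaced {r : ℕ} (w : Fin r → ℝ) : Prop :=
  ∃ c : ℝ, ∀ l : ℤ, ∃ j : Fin r, ∃ z : ℤ, w j = c + l / r + z

end Pool.Agent.Work.MP_5e5ff1_ag
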